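import Mathlib
import Pool.Agent.N988.EA.Stm3
import Pool.Agent.N80.EA_H

/-!
# Project EA (helper988), part UQ (helper764): uniqueness criterion in infinite volume
-/

set_option autoImplicit false

open MeasureTheory Set Filter
open scoped ENNReal Topology

namespace Pool.Agent.N764.EA

open Pool.Agent.N988.EA

noncomputable section

theorem cpl_mul {b : ℕ} (p : ℕ → Fin b × Bool) (J : EdgeInf b p → ℝ) (β : ℝ) (n : ℕ) :
    cpl p (fun e => β * J e) n = fun e => β * cpl p J n e := by
  induction n with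
  | zero => rfl
  | succ n ih =>
    funext e
    simp only [cpl]
    split_ifs with h
    · rw [ih]
    · rfl

theorem tanh_meas : Measurable Real.tanh := by
  have h : Real.tanh = fun x => Real.sinh x / Real.cosh x := by
    funext x
    exact Real.tanh_eq_sinh_div_cosh x
  rw [h]
  exact Real.continuous_sinh.measurable.div Real.continuous_cosh.measurable

theorem tanh_sq_le (x : ℝ) : Real.tanh x ^ 2 ≤ 1 := by
  rw [sq_le_one_iff_abs_le_one]
  exact (Real.abs_tanh_lt_one x).le

/-- squaring recursion -/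
theorem summ {t : ℕ → ℝ} {b m : ℕ} (hb : 1 ≤ b) (h0 : ∀ n, 0 ≤ t n)
    (hs : ∀ n, t (n + 1) ≤ b * t n ^ 2) (hm : b * t m < 1) : Summable t := by
  have hbr : (1 : ℝ) ≤ b := by exact_mod_cast hb
  have hA0 : 0 ≤ b * t m := mul_nonneg (by linarith) (h0 m)
  have key : ∀ j : ℕ, b * t (m + j) ≤ (b * t m) ^ (j + 1) := by
    intro j
    induction j with
    | zero => simp
    | succ j ih =>
      have h1 : b * t (m + (j + 1)) ≤ (b * t (m + j)) ^ 2 := by
        calc b * t (m + (j + 1)) ≤ b * (b * t (m + j) ^ 2) := by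
              apply mul_le_mul_of_nonneg_left (hs (m + j)) (by linarith)
          _ = (b * t (m + j)) ^ 2 := by ring
      have h2 : (b * t (m + j)) ^ 2 ≤ ((b * t m) ^ (j + 1)) ^ 2 := by
        apply pow_le_pow_left₀ (mul_nonneg (by linarith) (h0 _)) ih
      have h3 : ((b * t m) ^ (j + 1)) ^ 2 ≤ (b * t m) ^ (j + 1 + 1) := by
        rw [← pow_mul]
        exact pow_le_pow_of_le_one hA0 hm.le (by omega)
      exact h1.trans (h2.trans h3)
  have h4 : Summable (fun j : ℕ => t (j + m)) := by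
    refine Summable.of_nonneg_of_le (fun j => h0 _) (fun j => ?_)
      ((summable_geometric_of_lt_one hA0 hm).mul_left (b * t m))
    have h5 := key j
    rw [add_comm m j] at h5
    have h6 : t (j + m) ≤ b * t (j + m) := le_mul_of_one_le_left (h0 _) hbr
    calc t (j + m) ≤ (b * t m) ^ (j + 1) := h6.trans h5
      _ = b * t m * (b * t m) ^ j := by ring
  exact (summable_nat_add_iff m).1 h4

/-- almost sure convergence to zero from the summability of the second moments -/
theorem ae_zero {X : Type} [MeasurableSpace X] (Q : Measure X) (Y : ℕ → X → ℝ) (t : ℕ → ℝ)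
    (hY : ∀ n, Measurable (Y n)) (ht : ∀ n, 0 ≤ t n)
    (hi : ∀ n, ∫⁻ x, ENNReal.ofReal (Real.tanh (Y n x) ^ 2) ∂Q = ENNReal.ofReal (t n))
    (hs : Summable t) : ∀ᵐ x ∂Q, Tendsto (fun n => |Real.tanh (Y n x)|) atTop (𝓝 0) := by
  have hm : ∀ n, Measurable fun x => ENNReal.ofReal (Real.tanh (Y n x) ^ 2) := fun n =>
    ((tanh_meas.comp (hY n)).pow_const 2).ennreal_ofReal
  have h1 : ∫⁻ x, ∑' n, ENNReal.ofReal (Real.tanh (Y n x) ^ 2) ∂Q ≠ ⊤ := by
    rw [lintegral_tsum fun n => (hm n).aemeasurable]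
    simp only [hi]
    rw [← ENNReal.ofReal_tsum_of_nonneg ht hs]
    exact ENNReal.ofReal_ne_top
  have h2 := ae_lt_top (Measurable.ennreal_tsum hm) h1
  filter_upwards [h2] with x hx
  have h3 := ENNReal.tendsto_atTop_zero_of_tsum_ne_top hx.ne
  have h4 : Tendsto (fun n => Real.tanh (Y n x) ^ 2) atTop (𝓝 0) := by
    have h5 := (ENNReal.tendsto_toReal ENNReal.zero_ne_top).comp h3
    refine h5.congr fun n => ?_
    exact ENNReal.toReal_ofReal (sq_nonneg _)
  have h6 := (Real.continuous_sqrt.tendsto 0).comp h4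
  rw [Real.sqrt_zero] at h6
  refine h6.congr fun n => ?_
  exact Real.sqrt_sq_eq_abs _

theorem t_UQ (h0 : S_EX0) (h1 : S_UN) (h2 : S_T) (h4 : S_H) (h5 : S_MARG) : S_UQ := by
  intro b μ _ hμ β m hm p hp
  have hb : 1 ≤ b := by
    have := (p 0).1.2
    omega
  have hBm : Measurable (fun x : ℝ => β * x) := measurable_const_mul β
  set B : Measure ℝ := μ.map fun x => β * x with hB
  have hBp : IsProbabilityMeasure B := Measure.isProbabilityMeasure_map hBm.aemeasurable
  have hBs : B.map (fun x => -x) = B := by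
    rw [hB, Measure.map_map measurable_neg hBm]
    have e1 : ((fun x : ℝ => -x) ∘ fun x => β * x) = (fun x => β * x) ∘ fun x => -x := by
      funext x
      simp
    rw [e1, ← Measure.map_map hBm measurable_neg, hμ]
  set t : ℕ → ℝ := fun n => ∫ x, Real.tanh x ^ 2 ∂(lw B b n) with ht
  have ht0 : ∀ n, 0 ≤ t n := fun n => integral_nonneg fun x => sq_nonneg _
  have hstep : ∀ n, t (n + 1) ≤ b * t n ^ 2 := by
    intro n
    have := Pool.Agent.N80.EA.lw_prob B b n
    exact h2 b (lw B b n) ((h4 B b n).2.2.2.2 hBs)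
  have hsum : Summable t := summ hb ht0 hstep hm
  -- the laws
  set Q : Measure (EdgeInf b p → ℝ) := Measure.infinitePi fun _ : EdgeInf b p => μ with hQ
  have hmp : ∀ (h : Bool) (n : ℕ), MeasurePreserving
      (fun J : EdgeInf b p → ℝ => K n fun e => β * cpl p J (n + 1) ((p n).1, h, e)) Q
      (lw B b n) := by
    intro h n
    have m1 : MeasurePreserving (fun J : EdgeInf b p → ℝ => cpl p J (n + 1)) Q (P μ b (n + 1)) :=
      ⟨(h5 μ b p (n + 1)).1, (h5 μ b p (n + 1)).2⟩
    have m2 : MeasurePreserving (fun (J : Edge b (n + 1) → ℝ) (e : Edge b n) => J ((p n).1, h, e))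
        (P μ b (n + 1)) (P μ b n) :=
      ⟨Pool.Agent.N80.EA.meas_half (p n).1 h, (h4 μ b n).2.2.1 (p n).1 h⟩
    have m3 : MeasurePreserving (fun (J : Edge b n → ℝ) (e : Edge b n) => β * J e)
        (P μ b n) (P B b n) := by
      refine ⟨measurable_pi_lambda _ fun e => measurable_const.mul (measurable_pi_apply e), ?_⟩
      unfold P
      rw [hB]
      exact Measure.pi_map_pi fun _ => (measurable_const_mul β).aemeasurable
    have m4 : MeasurePreserving (K n : (Edge b n → ℝ) → ℝ) (P B b n) (lw B b n) :=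
      ⟨(h4 B b n).1, (h4 B b n).2.1⟩
    exact ((m4.comp m3).comp m2).comp m1
  have hint : ∀ (h : Bool) (n : ℕ), ∫⁻ J : EdgeInf b p → ℝ, ENNReal.ofReal
      (Real.tanh (K n fun e => β * cpl p J (n + 1) ((p n).1, h, e)) ^ 2) ∂Q =
      ENNReal.ofReal (t n) := by
    intro h n
    have := Pool.Agent.N80.EA.lw_prob B b n
    have hm2 : Measurable fun x : ℝ => Real.tanh x ^ 2 := tanh_meas.pow_const 2
    have h6 := (hmp h n).lintegral_comp (f := fun x : ℝ => ENNReal.ofReal (Real.tanh x ^ 2))
      hm2.ennreal_ofReal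
    rw [h6, ht]
    symm
    refine ofReal_integral_eq_lintegral_ofReal ?_ (Eventually.of_forall fun x => sq_nonneg _)
    refine Integrable.of_bound hm2.aestronglyMeasurable 1 (Eventually.of_forall fun x => ?_)
    rw [Real.norm_of_nonneg (sq_nonneg _)]
    exact tanh_sq_le x
  have hae : ∀ h : Bool, ∀ᵐ J ∂Q, Tendsto (fun n =>
      |Real.tanh (K n fun e => β * cpl p J (n + 1) ((p n).1, h, e))|) atTop (𝓝 0) := fun h =>
    ae_zero Q (fun n J => K n fun e => β * cpl p J (n + 1) ((p n).1, h, e)) t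
      (fun n => (hmp h n).measurable) ht0 (hint h) hsum
  filter_upwards [hae false, hae true] with J hf htr
  obtain ⟨γ, hγ⟩ := h0 b p fun e => β * J e
  refine ⟨γ, hγ, fun γ' hγ' => ?_⟩
  refine h1 b p (fun e => β * J e) hp ?_ γ' γ hγ' hγ
  have h7 := hf.add htr
  rw [add_zero] at h7
  refine h7.congr fun n => ?_
  rw [cpl_mul]

end

end Pool.Agent.N764.EA
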