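import Pool.Agent.N183.U8.StmG

/-!
# GS/H: forms killed by square zero operators (helper764)
-/

set_option autoImplicit false

namespace Pool.Agent.N764.GSH

open Module Finset

theorem H : Pool.Agent.N183.U8.S_H := by
  intro V _ _ κ _ _ φ C hC hφ v
  have hCC : ∀ x, C (C x) = 0 := fun x => by
    have := congrArg (fun f : End ℂ V => f x) hC
    simpa using this
  let E : Finset κ → ℂ := fun B => φ (B.piecewise (fun k => C (v k)) v)
  let c : Finset κ → ℂ := fun A => 1 / ((A.card : ℂ) + 1)
  have hA : ∀ A : Finset κ, ∑ k, (if k ∉ A then E (insert k A) else 0) = 0 := by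
    intro A
    have h := hφ (A.piecewise (fun k => C (v k)) v)
    refine (Finset.sum_congr rfl fun k _ => ?_).trans h
    by_cases hk : k ∈ A
    · rw [if_neg (not_not.2 hk), Finset.piecewise_eq_of_mem _ _ _ hk, hCC]
      exact (φ.map_coord_zero k (Function.update_self _ _ _)).symm
    · rw [if_pos hk, Finset.piecewise_eq_of_notMem _ _ _ hk, ← Finset.piecewise_insert]
  have h1 : ∑ A : Finset κ, ∑ k, (if k ∉ A then c A * E (insert k A) else 0) = 0 := by
    refine Finset.sum_eq_zero fun A _ => ?_
    have h2 := congrArg (fun t => c A * t) (hA A)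
    simp only [mul_zero, Finset.mul_sum] at h2
    refine (Finset.sum_congr rfl fun k _ => ?_).trans h2
    split_ifs <;> simp
  rw [Finset.sum_comm] at h1
  have h2 : ∀ k : κ, ∑ A : Finset κ, (if k ∉ A then c A * E (insert k A) else 0) =
      ∑ B : Finset κ, (if k ∈ B then c (B.erase k) * E B else 0) := by
    intro k
    rw [← Finset.sum_filter, ← Finset.sum_filter]
    refine Finset.sum_nbij' (fun A => insert k A) (fun B => B.erase k) ?_ ?_ ?_ ?_ ?_
    · intro A hA'
      simp
    · intro B hB
      simp
    · intro A hA'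
      rw [Finset.mem_filter] at hA'
      exact Finset.erase_insert hA'.2
    · intro B hB
      rw [Finset.mem_filter] at hB
      exact Finset.insert_erase hB.2
    · intro A hA'
      rw [Finset.mem_filter] at hA'
      rw [Finset.erase_insert hA'.2]
  simp only [h2] at h1
  rw [Finset.sum_comm] at h1
  have h3 : ∀ B : Finset κ, ∑ k, (if k ∈ B then c (B.erase k) * E B else 0) =
      if B = ∅ then 0 else E B := by
    intro B
    rw [← Finset.sum_filter]
    by_cases hB : B = ∅
    · subst hB
      simp
    · rw [if_neg hB]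
      have hB' : 0 < B.card := Finset.card_pos.2 (Finset.nonempty_iff_ne_empty.2 hB)
      have h4 : ∀ k ∈ Finset.univ.filter (fun k => k ∈ B), c (B.erase k) * E B =
          1 / (B.card : ℂ) * E B := by
        intro k hk
        rw [Finset.mem_filter] at hk
        change 1 / (((B.erase k).card : ℂ) + 1) * E B = _
        rw [Finset.card_erase_of_mem hk.2]
        congr 2
        have : ((B.card - 1 : ℕ) : ℂ) + 1 = ((B.card - 1 + 1 : ℕ) : ℂ) := by push_cast; rfl
        rw [this]
        congr 1
        omega
      rw [Finset.sum_congr rfl h4, Finset.sum_const]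
      have h5 : (Finset.univ.filter (fun k => k ∈ B)) = B := by ext; simp
      rw [h5, nsmul_eq_mul]
      have h6 : (B.card : ℂ) ≠ 0 := by exact_mod_cast hB'.ne'
      field_simp
  simp only [h3] at h1
  have h4 : φ (fun k => v k + C (v k)) = ∑ B : Finset κ, E B := by
    have h5 := φ.map_add_univ (fun k => C (v k)) v
    have h6 : (fun k => v k + C (v k)) = (fun k => C (v k)) + v := by
      funext k
      simp [add_comm]
    rw [h6, h5]
  have h5 : E ∅ = φ v := by
    change φ ((∅ : Finset κ).piecewise (fun k => C (v k)) v) = φ v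
    rw [Finset.piecewise_empty]
  rw [h4, ← h5, ← Finset.add_sum_erase Finset.univ E (Finset.mem_univ ∅)]
  rw [← Finset.add_sum_erase Finset.univ _ (Finset.mem_univ (∅ : Finset κ)), if_pos rfl, zero_add] at h1
  have h6 : ∑ B ∈ Finset.univ.erase (∅ : Finset κ), E B = 0 := by
    refine (Finset.sum_congr rfl fun B hB => ?_).trans h1
    rw [if_neg (Finset.ne_of_mem_erase hB)]
  rw [h6, add_zero]

end Pool.Agent.N764.GSH
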